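import Mathlib

/-!
MP_086d3c_co: common rich superwords of two rich words of small length.
-/

namespace Pool.Agent.RichW

variable {α : Type*}

/-- A word is rich if it has exactly `|w| + 1` distinct palindromic factors (counting the empty
word). -/
def Rich (w : List α) : Prop :=
  {p : List α | p <:+: w ∧ p.reverse = p}.ncard = w.length + 1

/-- window of length `k` at position `i` -/
def win (w : ℕ → α) (k i : ℕ) : List α := (List.range k).map (fun t => w (i + t))

theorem win_length (w : ℕ → α) (k i : ℕ) : (win w k i).length = k := by simp [win]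

theorem win_get (w : ℕ → α) (k i t : ℕ) (h : t < k) :
    (win w k i)[t]'(by rw [win_length]; exact h) = w (i + t) := by simp [win]

theorem win_eq {w w' : ℕ → α} {k i j : ℕ} :
    win w k i = win w' k j ↔ ∀ t < k, w (i + t) = w' (j + t) := by
  unfold win
  rw [List.map_inj_left]
  simp

theorem win_rev_eq {w w' : ℕ → α} {k i j : ℕ} :
    (win w k i).reverse = win w' k j ↔ ∀ t < k, w (i + (k - 1 - t)) = w' (j + t) := by
  constructor
  · intro h t ht
    have h1 : (win w k i).reverse[t]'(by rw [List.length_reverse, win_length]; exact ht) =
        (win w' k j)[t]'(by rw [win_length]; exact ht) := by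
      simp only [h]
    rw [List.getElem_reverse, win_get w' k j t ht] at h1
    rw [← h1]
    simp only [win_length]
    rw [win_get w k i (k - 1 - t) (by omega)]
  · intro h
    apply List.ext_getElem
    · rw [List.length_reverse, win_length, win_length]
    · intro t h1 h2
      rw [win_length] at h2
      rw [List.getElem_reverse, win_get w' k j t h2]
      simp only [win_length]
      rw [win_get w k i (k - 1 - t) (by omega)]
      exact h t h2

theorem win_pal {w : ℕ → α} {k i : ℕ} :
    (win w k i).reverse = win w k i ↔ ∀ t < k, w (i + (k - 1 - t)) = w (i + t) := win_rev_eq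

theorem win_tail (w : ℕ → α) (k i : ℕ) : (win w (k + 1) i).tail = win w k (i + 1) := by
  apply List.ext_getElem
  · rw [List.length_tail, win_length, win_length]; rfl
  · intro t h1 h2
    rw [win_length] at h2
    rw [List.getElem_tail, win_get w k (i + 1) t h2, win_get w (k + 1) i (t + 1) (by omega)]
    congr 1
    omega

theorem win_dropLast (w : ℕ → α) (k i : ℕ) : (win w (k + 1) i).dropLast = win w k i := by
  apply List.ext_getElem
  · rw [List.length_dropLast, win_length, win_length]; rfl
  · intro t h1 h2
    rw [win_length] at h2
    rw [List.getElem_dropLast, win_get w k i t h2, win_get w (k + 1) i t (by omega)]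

theorem rev_tail (l : List α) : l.reverse.tail = l.dropLast.reverse := by
  rw [List.tail_reverse]

theorem rev_dropLast (l : List α) : l.reverse.dropLast = l.tail.reverse := by
  rw [List.dropLast_reverse]

/-- the set of windows of length `k` of the word of length `N` -/
def L (w : ℕ → α) (N k : ℕ) : Set (List α) := {d | ∃ i, i + k ≤ N ∧ d = win w k i}

/-- the cut property at level `k` -/
def Br (E : Set (List α)) : Prop := ∀ e ∈ E, e.reverse ≠ e → ∃ χ : List α → Prop,
  (∀ x, χ x.reverse ↔ χ x) ∧
  (∀ d ∈ E, d ≠ e → d ≠ e.reverse → (χ d.dropLast ↔ χ d.tail)) ∧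
  ¬ (χ e.dropLast ↔ χ e.tail)

theorem Br.mono {E F : Set (List α)} (h : Br F) (hE : E ⊆ F) : Br E := by
  intro e he hne
  obtain ⟨χ, h1, h2, h3⟩ := h e (hE he) hne
  exact ⟨χ, h1, fun d hd => h2 d (hE hd), h3⟩

/-- every nonempty initial part has a palindromic suffix that does not occur before -/
def Ul (w : ℕ → α) (N : ℕ) : Prop := ∀ m, 1 ≤ m → m ≤ N → ∃ k, 1 ≤ k ∧ k ≤ m ∧
  (win w k (m - k)).reverse = win w k (m - k) ∧ ∀ a, a + k < m → win w k a ≠ win w k (m - k)

theorem Ul.mono {w : ℕ → α} {N M : ℕ} (h : Ul w N) (hM : M ≤ N) : Ul w M :=
  fun m h1 h2 => h m h1 (h2.trans hM)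

theorem L_mono {w : ℕ → α} {N M k : ℕ} (h : N ≤ M) : L w N k ⊆ L w M k := by
  rintro d ⟨i, hi, rfl⟩
  exact ⟨i, hi.trans h, rfl⟩

theorem L_succ {w : ℕ → α} {N k : ℕ} {d : List α} (hd : d ∈ L w (N + 1) k) :
    d ∈ L w N k ∨ (k ≤ N + 1 ∧ d = win w k (N + 1 - k)) := by
  obtain ⟨i, hi, rfl⟩ := hd
  by_cases h : i + k ≤ N
  · exact Or.inl ⟨i, h, rfl⟩
  · right
    refine ⟨by omega, ?_⟩
    have : i = N + 1 - k := by omega
    rw [this]

theorem Ul.br {w : ℕ → α} {N : ℕ} (h : Ul w N) (k : ℕ) : Br (L w N (k + 1)) := by
  classical
  induction N with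
  | zero =>
    rintro e ⟨i, hi, _⟩
    omega
  | succ N ih =>
    have ih' := ih (h.mono (Nat.le_succ N))
    by_cases hkN : k ≤ N
    swap
    · rintro e ⟨i, hi, _⟩
      omega
    set ds := win w (k + 1) (N - k) with hds
    set g := win w k (N + 1 - k) with hg
    have hpre : ds.dropLast = win w k (N - k) := win_dropLast w k (N - k)
    have hsuf : ds.tail = g := by
      rw [hds, win_tail, hg]
      congr 1
      omega
    have hpreL : ds.dropLast ∈ L w N k := ⟨N - k, by omega, hpre⟩
    have hstep : ∀ d ∈ L w (N + 1) (k + 1), d ∈ L w N (k + 1) ∨ d = ds := by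
      intro d hd
      rcases L_succ hd with h1 | ⟨_, h1⟩
      · exact Or.inl h1
      · right
        rw [h1, hds]
        congr 1
        omega
    have hdL : ∀ d ∈ L w N (k + 1), d.dropLast ∈ L w N k ∧ d.tail ∈ L w N k := by
      rintro d ⟨i, hi, rfl⟩
      exact ⟨⟨i, by omega, win_dropLast w k i⟩, ⟨i + 1, by omega, win_tail w k i⟩⟩
    by_cases hold : ds ∈ L w N (k + 1) ∨ ds.reverse ∈ L w N (k + 1)
    · -- the last edge is old
      intro e he hne
      obtain ⟨e', he', hee⟩ : ∃ e' ∈ L w N (k + 1), e' = e ∨ e' = e.reverse := by
        rcases hstep e he with h1 | rfl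
        · exact ⟨e, h1, Or.inl rfl⟩
        · rcases hold with h1 | h1
          · exact ⟨_, h1, Or.inl rfl⟩
          · exact ⟨_, h1, Or.inr rfl⟩
      have hne' : e'.reverse ≠ e' := by
        rcases hee with rfl | rfl
        · exact hne
        · rw [List.reverse_reverse]
          exact fun h => hne h.symm
      obtain ⟨χ, h1, h2, h3⟩ := ih' e' he' hne'
      refine ⟨χ, h1, ?_, ?_⟩
      · intro d hd hde hder
        have h4 : d ≠ e' ∧ d ≠ e'.reverse := by
          rcases hee with rfl | rfl
          · exact ⟨hde, hder⟩
          · rw [List.reverse_reverse]; exact ⟨hder, hde⟩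
        rcases hstep d hd with h5 | rfl
        · exact h2 d h5 h4.1 h4.2
        · rcases hold with h5 | h5
          · exact h2 _ h5 h4.1 h4.2
          · have h6 := h2 _ h5 (fun h => h4.2 (by rw [← h, List.reverse_reverse]))
              (fun h => h4.1 (List.reverse_injective h))
            rw [rev_tail, rev_dropLast, h1, h1] at h6
            exact h6.symm
      · rcases hee with rfl | rfl
        · exact h3
        · rw [rev_tail, rev_dropLast, h1, h1] at h3
          exact fun h => h3 h.symm
    · push Not at hold
      obtain ⟨hold1, hold2⟩ := hold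
      by_cases hgold : g ∈ L w N k ∨ g.reverse ∈ L w N k
      · -- the last vertex is old: the last edge is a palindrome
        obtain ⟨k0, hk1, hk2, hpal, hun⟩ := h (N + 1) (by omega) le_rfl
        have hk0 : k + 1 ≤ k0 := by
          by_contra hlt
          push Not at hlt
          rw [win_pal] at hpal
          rcases hgold with ⟨a, ha, hga⟩ | ⟨a, ha, hga⟩
          · rw [hg, win_eq] at hga
            apply hun (a + (k - k0)) (by omega)
            rw [win_eq]
            intro t ht
            have := hga (k - k0 + t) (by omega)
            rw [show a + (k - k0) + t = a + (k - k0 + t) by omega, ← this]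
            congr 1
            omega
          · rw [hg, win_rev_eq] at hga
            apply hun a (by omega)
            rw [win_eq]
            intro t ht
            rw [← hga t (by omega), ← hpal t ht]
            congr 1
            omega
        have hk0' : k0 = k + 1 := by
          by_contra hne
          have hlt : k + 1 < k0 := by omega
          apply hold2
          refine ⟨N + 1 - k0, by omega, ?_⟩
          rw [hds, win_rev_eq]
          rw [win_pal] at hpal
          intro t ht
          rw [← hpal t (by omega)]
          congr 1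
          omega
        have hpalds : ds.reverse = ds := by
          rw [hk0'] at hpal
          rw [hds, show N - k = N + 1 - (k + 1) by omega]
          exact hpal
        intro e he hne
        rcases hstep e he with he1 | rfl
        swap
        · exact absurd hpalds hne
        obtain ⟨χ, h1, h2, h3⟩ := ih' e he1 hne
        refine ⟨χ, h1, ?_, h3⟩
        intro d hd hde hder
        rcases hstep d hd with h5 | rfl
        · exact h2 d h5 hde hder
        · have : ds.tail = ds.dropLast.reverse := by
            rw [← rev_tail, hpalds]
          rw [this, h1]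
      · push Not at hgold
        obtain ⟨hg1, hg2⟩ := hgold
        have hng : ∀ x ∈ L w N k, x ≠ g ∧ x ≠ g.reverse := by
          intro x hx
          constructor
          · rintro rfl; exact hg1 hx
          · rintro rfl; exact hg2 hx
        intro e he hne
        rcases hstep e he with he1 | rfl
        · obtain ⟨χ, h1, h2, h3⟩ := ih' e he1 hne
          refine ⟨fun x => if x = g ∨ x = g.reverse then χ ds.dropLast else χ x, ?_, ?_, ?_⟩
          · intro x
            have hiff : (x.reverse = g ∨ x.reverse = g.reverse) ↔ (x = g ∨ x = g.reverse) := by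
              rw [List.reverse_inj, List.reverse_eq_iff]
              tauto
            by_cases hx : x = g ∨ x = g.reverse
            · simp only [if_pos hx, if_pos (hiff.2 hx)]
            · simp only [if_neg hx, if_neg (fun h => hx (hiff.1 h)), h1]
          · intro d hd hde hder
            rcases hstep d hd with h5 | rfl
            · have h6 := hdL d h5
              have h7 := hng _ h6.1
              have h8 := hng _ h6.2
              simp only [h7.1, h7.2, h8.1, h8.2, or_self, if_false]
              exact h2 d h5 hde hder
            · have h7 := hng _ hpreL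
              simp only [h7.1, h7.2, or_self, if_false, hsuf, true_or, if_true]
          · have h6 := hdL e he1
            have h7 := hng _ h6.1
            have h8 := hng _ h6.2
            simp only [h7.1, h7.2, h8.1, h8.2, or_self, if_false]
            exact h3
        · refine ⟨fun x => x = g ∨ x = g.reverse, ?_, ?_, ?_⟩
          · intro x
            simp only
            rw [List.reverse_inj, List.reverse_eq_iff]
            tauto
          · intro d hd hde hder
            rcases hstep d hd with h5 | rfl
            · have h6 := hdL d h5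
              have h7 := hng _ h6.1
              have h8 := hng _ h6.2
              simp only [h7.1, h7.2, h8.1, h8.2, or_self]
            · exact absurd rfl hde
          · have h7 := hng _ hpreL
            simp only [h7.1, h7.2, or_self, hsuf, true_or, iff_true, not_false_eq_true]

/-- distinct windows -/
def Dw (w : ℕ → α) (N n : ℕ) : Prop := ∀ i j, i + n ≤ N → j + n ≤ N → win w n i = win w n j → i = j

theorem pal_return {w : ℕ → α} {N n : ℕ} (hB : Br (L w N (n + 1))) (hD : Dw w N n) :
    ∀ (s i j : ℕ), j - i = s → i ≤ j → j + n ≤ N → (win w n i).reverse = win w n j →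
      (win w (j - i + n) i).reverse = win w (j - i + n) i := by
  intro s
  induction s using Nat.strong_induction_on with
  | _ s ih =>
    intro i j hs hij hj hr
    rcases Nat.eq_or_lt_of_le hij with rfl | hlt
    · rw [Nat.sub_self, zero_add]; exact hr
    rcases Nat.eq_or_lt_of_le (Nat.succ_le_of_lt hlt) with heq | hlt2
    · -- adjacent
      have hj1 : j = i + 1 := heq.symm
      subst hj1
      rw [win_rev_eq] at hr
      rw [win_pal]
      intro t ht
      have hn : i + 1 - i + n = n + 1 := by omega
      rw [hn] at ht ⊢
      by_cases h0 : t = 0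
      · subst h0
        by_cases hn0 : n = 0
        · subst hn0; rfl
        · have := hr (n - 1) (by omega)
          rw [show i + (n - 1 - (n - 1)) = i by omega, show i + 1 + (n - 1) = i + n by omega] at this
          rw [show i + (n + 1 - 1 - 0) = i + n by omega, show i + 0 = i by omega]
          exact this.symm
      · have := hr (t - 1) (by omega)
        rw [show i + (n - 1 - (t - 1)) = i + (n + 1 - 1 - t) by omega,
          show i + 1 + (t - 1) = i + t by omega] at this
        exact this
    · have hlt3 : i + 2 ≤ j := hlt2
      set e := win w (n + 1) i with he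
      have hne : e.reverse ≠ e := by
        intro hp
        have h1 : win w n (i + 1) = win w n j := by
          rw [← hr, ← win_tail, ← win_dropLast w n i, ← rev_tail]
          rw [← he, hp]
        have := hD (i + 1) j (by omega) hj h1
        omega
      obtain ⟨χ, h1, h2, h3⟩ := hB e ⟨i, by omega, rfl⟩ hne
      have hex : ∃ a, i + 1 ≤ a ∧ a + 1 ≤ j ∧ (win w (n + 1) a = e ∨ win w (n + 1) a = e.reverse) := by
        by_contra hcon
        push Not at hcon
        have hwalk : ∀ b, i + 1 ≤ b → b ≤ j → (χ (win w n (i + 1)) ↔ χ (win w n b)) := by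
          intro b hb
          induction b, hb using Nat.le_induction with
          | base => intro _; rfl
          | succ b hb ihb =>
            intro hbj
            have h4 := hcon b hb hbj
            have h5 := h2 (win w (n + 1) b) ⟨b, by omega, rfl⟩ h4.1 h4.2
            rw [win_dropLast, win_tail] at h5
            exact (ihb (by omega)).trans h5
        have h6 := hwalk j (by omega) le_rfl
        rw [← hr, h1] at h6
        apply h3
        rw [he, win_dropLast, win_tail]
        exact h6.symm
      obtain ⟨a, ha1, ha2, hae⟩ := hex
      have har : win w (n + 1) a = e.reverse := by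
        rcases hae with h4 | h4
        · exfalso
          have h5 : win w n a = win w n i := by
            rw [← win_dropLast w n a, h4, he, win_dropLast]
          have := hD a i (by omega) (by omega) h5
          omega
        · exact h4
      have haj : a + 1 = j := by
        apply hD (a + 1) j (by omega) hj
        rw [← win_tail, har, rev_tail, he, win_dropLast, hr]
      have hr' : (win w n (i + 1)).reverse = win w n (j - 1) := by
        have : j - 1 = a := by omega
        rw [this, ← win_dropLast w n a, har, rev_dropLast, he, win_tail]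
      have hpal := ih (j - 1 - (i + 1)) (by omega) (i + 1) (j - 1) rfl (by omega) (by omega) hr'
      rw [win_pal] at hpal ⊢
      rw [win_rev_eq] at hr
      intro t ht
      by_cases h0 : t = 0
      · subst h0
        by_cases hn0 : n = 0
        · exfalso
          subst hn0
          have := hD i j (by omega) hj (by rw [win_eq]; intro t ht; omega)
          omega
        · have := hr (n - 1) (by omega)
          rw [show i + (n - 1 - (n - 1)) = i by omega] at this
          rw [show i + (j - i + n - 1 - 0) = j + (n - 1) by omega, ← this]
          rfl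
      · by_cases h9 : t = j - i + n - 1
        · by_cases hn0 : n = 0
          · exfalso
            subst hn0
            have := hD i j (by omega) hj (by rw [win_eq]; intro t ht; omega)
            omega
          · have := hr (n - 1) (by omega)
            rw [show i + (n - 1 - (n - 1)) = i by omega] at this
            rw [show i + t = j + (n - 1) by omega, ← this]
            congr 1
            omega
        · have := hpal (t - 1) (by omega)
          rw [show i + 1 + (j - 1 - (i + 1) + n - 1 - (t - 1)) = i + (j - i + n - 1 - t) by omega,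
            show i + 1 + (t - 1) = i + t by omega] at this
          exact this

theorem ul_last {w : ℕ → α} {N n : ℕ} (hN : 1 ≤ N) (hB : ∀ k ≤ n, Br (L w N (k + 1)))
    (hD : Dw w N n) : ∃ k, 1 ≤ k ∧ k ≤ N ∧
      (win w k (N - k)).reverse = win w k (N - k) ∧ ∀ a, a + k < N → win w k a ≠ win w k (N - k) := by
  classical
  by_cases hcase : n ≤ N ∧ ∃ i, i + n ≤ N ∧ (win w n i).reverse = win w n (N - n)
  · obtain ⟨hnN, i, hi, hr⟩ := hcase
    by_cases hn0 : n = 0
    · exfalso
      subst hn0
      have := hD 0 1 (by omega) (by omega) (by rw [win_eq]; intro t ht; omega)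
      omega
    have hpal := pal_return (hB n le_rfl) hD (N - n - i) i (N - n) rfl (by omega) (by omega) hr
    refine ⟨N - i, by omega, by omega, ?_, ?_⟩
    · rw [show N - (N - i) = i by omega, show N - i = N - n - i + n by omega]
      exact hpal
    · intro a ha heq
      rw [show N - (N - i) = i by omega] at heq
      rw [win_eq] at heq
      have h1 : win w n (a + (N - i - n)) = win w n (N - n) := by
        rw [win_eq]
        intro t ht
        have := heq (N - i - n + t) (by omega)
        rw [show a + (N - i - n) + t = a + (N - i - n + t) by omega, this]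
        congr 1
        omega
      have := hD _ _ (by omega) (by omega) h1
      omega
  · let P : ℕ → Prop := fun k => ∃ a, a + k < N ∧
      (win w k a = win w k (N - k) ∨ win w k a = (win w k (N - k)).reverse)
    have hP0 : P 0 := ⟨0, by omega, Or.inl (by rw [win_eq]; intro t ht; omega)⟩
    have hPn : ¬ P (min n N) := by
      rintro ⟨a, ha, hw⟩
      by_cases hnN : n ≤ N
      · rw [min_eq_left hnN] at ha hw
        rcases hw with hw | hw
        · have := hD _ _ (by omega) (by omega) hw
          omega
        · exact hcase ⟨hnN, a, by omega, by rw [hw, List.reverse_reverse]⟩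
      · rw [min_eq_right (by omega)] at ha
        omega
    obtain ⟨k, hk1, hk2, hk3⟩ : ∃ k, k < min n N ∧ P k ∧ ¬ P (k + 1) := by
      by_contra hcon
      push Not at hcon
      have : ∀ k, k ≤ min n N → P k := by
        intro k
        induction k with
        | zero => intro _; exact hP0
        | succ k ih => intro hk; exact hcon k (by omega) (ih (by omega))
      exact hPn (this _ le_rfl)
    have hkn : k < n := by omega
    have hkN : k < N := by omega
    refine ⟨k + 1, by omega, by omega, ?_, ?_⟩
    · by_contra hne
      set e := win w (k + 1) (N - (k + 1)) with he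
      obtain ⟨χ, h1, h2, h3⟩ := hB k hkn.le e ⟨N - (k + 1), by omega, rfl⟩ hne
      have hwalk : ∀ b, b + k < N → (χ (win w k 0) ↔ χ (win w k b)) := by
        intro b
        induction b with
        | zero => intro _; rfl
        | succ b ih =>
          intro hb
          have h4 : win w (k + 1) b ≠ e := fun h => hk3 ⟨b, by omega, Or.inl h⟩
          have h5 : win w (k + 1) b ≠ e.reverse := fun h => hk3 ⟨b, by omega, Or.inr h⟩
          have h6 := h2 _ ⟨b, by omega, rfl⟩ h4 h5
          rw [win_dropLast, win_tail] at h6
          exact (ih (by omega)).trans h6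
      obtain ⟨a, ha, hw⟩ := hk2
      have h7 : χ (win w k a) ↔ χ (win w k (N - k)) := by
        rcases hw with hw | hw
        · rw [hw]
        · rw [hw, h1]
      apply h3
      rw [he, win_dropLast, win_tail, show N - (k + 1) + 1 = N - k by omega, ← h7]
      exact (hwalk (N - (k + 1)) (by omega)).symm.trans (hwalk a ha)
    · intro a ha heq
      exact hk3 ⟨a, ha, Or.inl heq⟩

theorem ul_of_br {w : ℕ → α} {N n : ℕ} (hB : ∀ k ≤ n, Br (L w N (k + 1))) (hD : Dw w N n) :
    Ul w N := by
  intro m hm1 hmN
  refine ul_last (n := n) hm1 (fun k hk => (hB k hk).mono (L_mono hmN)) ?_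
  intro i j hi hj h
  exact hD i j (by omega) (by omega) h

/-- the cut word -/
theorem cut {w : ℕ → α} {N n i j : ℕ} (hij : i < j) (hj : j + n ≤ N)
    (hw : win w n i = win w n j) (hB : ∀ k ≤ n, Br (L w N (k + 1))) :
    ∃ (w' : ℕ → α) (N' : ℕ), N' < N ∧ n ≤ N' ∧ (∀ k ≤ n, Br (L w' N' (k + 1))) ∧
      win w' n 0 = win w n 0 ∧ win w' n (N' - n) = win w n (N - n) := by
  classical
  rw [win_eq] at hw
  let w' : ℕ → α := fun t => if t < i then w t else w (t + (j - i))
  have hlow : ∀ t, t < i + n → w' t = w t := by
    intro t ht
    by_cases h : t < i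
    · simp only [w', if_pos h]
    · simp only [w', if_neg h]
      have := hw (t - i) (by omega)
      rw [show i + (t - i) = t by omega, show j + (t - i) = t + (j - i) by omega] at this
      exact this.symm
  have hhigh : ∀ t, i ≤ t → w' t = w (t + (j - i)) := by
    intro t ht
    simp only [w', if_neg (not_lt.2 ht)]
  refine ⟨w', N - (j - i), by omega, by omega, ?_, ?_, ?_⟩
  · intro k hk
    refine (hB k hk).mono ?_
    rintro d ⟨s, hs, rfl⟩
    by_cases h : s < i
    · refine ⟨s, by omega, ?_⟩
      rw [win_eq]
      intro t ht
      exact hlow (s + t) (by omega)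
    · refine ⟨s + (j - i), by omega, ?_⟩
      rw [win_eq]
      intro t ht
      rw [hhigh (s + t) (by omega)]
      congr 1
      omega
  · rw [win_eq]
    intro t ht
    exact hlow _ (by omega)
  · rw [win_eq]
    intro t ht
    rw [hhigh _ (by omega)]
    congr 1
    omega

theorem exists_short {n : ℕ} : ∀ (N : ℕ) (w : ℕ → α), n ≤ N → (∀ k ≤ n, Br (L w N (k + 1))) →
    ∃ (w' : ℕ → α) (N' : ℕ), n ≤ N' ∧ Ul w' N' ∧ Dw w' N' n ∧
      win w' n 0 = win w n 0 ∧ win w' n (N' - n) = win w n (N - n) := by
  intro N
  induction N using Nat.strong_induction_on with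
  | _ N ih =>
    intro w hn hB
    by_cases hD : Dw w N n
    · exact ⟨w, N, hn, ul_of_br hB hD, hD, rfl, rfl⟩
    · have : ∃ i j, i < j ∧ j + n ≤ N ∧ win w n i = win w n j := by
        unfold Dw at hD
        push Not at hD
        obtain ⟨i, j, hi, hj, hw, hne⟩ := hD
        rcases Nat.lt_or_gt_of_ne hne with h | h
        · exact ⟨i, j, h, hj, hw⟩
        · exact ⟨j, i, h, hi, hw.symm⟩
      obtain ⟨i, j, hij, hj, hw⟩ := this
      obtain ⟨w1, N1, h1, h2, h3, h4, h5⟩ := cut hij hj hw hB
      obtain ⟨w', N', h6, h7, h8, h9, h10⟩ := ih N1 h1 w1 h2 h3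
      exact ⟨w', N', h6, h7, h8, h9.trans h4, h10.trans h5⟩

/-! ### richness and unioccurrent palindromic suffixes -/

/-- palindromic windows -/
def Pal (w : ℕ → α) (N : ℕ) : Set (List α) :=
  {p | ∃ k i, i + k ≤ N ∧ p = win w k i ∧ p.reverse = p}

/-- new palindromes -/
def New (w : ℕ → α) (N : ℕ) : Set (List α) :=
  {p | ∃ k, k ≤ N + 1 ∧ p = win w k (N + 1 - k) ∧ p.reverse = p ∧ p ∉ Pal w N}

theorem pal_zero (w : ℕ → α) : Pal w 0 = {[]} := by
  ext p
  constructor
  · rintro ⟨k, i, hi, rfl, _⟩
    have : k = 0 := by omega
    subst this
    rfl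
  · rintro rfl
    exact ⟨0, 0, le_rfl, rfl, rfl⟩

theorem pal_succ (w : ℕ → α) (N : ℕ) : Pal w (N + 1) = Pal w N ∪ New w N := by
  classical
  ext p
  constructor
  · rintro ⟨k, i, hi, hp, hpal⟩
    by_cases hold : p ∈ Pal w N
    · exact Or.inl hold
    · right
      have hlt : ¬ (i + k ≤ N) := fun h => hold ⟨k, i, h, hp, hpal⟩
      refine ⟨k, by omega, ?_, hpal, hold⟩
      rw [hp]
      congr 1
      omega
  · rintro (⟨k, i, hi, hp, hpal⟩ | ⟨k, hk, hp, hpal, _⟩)
    · exact ⟨k, i, by omega, hp, hpal⟩
    · exact ⟨k, N + 1 - k, by omega, hp, hpal⟩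

theorem new_sub (w : ℕ → α) (N : ℕ) {k k' : ℕ} (h1 : k ≤ N + 1) (h1' : k' ≤ N + 1)
    (h2 : (win w k (N + 1 - k)).reverse = win w k (N + 1 - k))
    (h2' : (win w k' (N + 1 - k')).reverse = win w k' (N + 1 - k'))
    (h3 : win w k (N + 1 - k) ∉ Pal w N) : k ≤ k' → k = k' := by
  intro hkk
  by_contra hne
  have hlt : k < k' := by omega
  apply h3
  refine ⟨k, N + 1 - k', by omega, ?_, h2⟩
  rw [win_pal] at h2 h2'
  rw [win_eq]
  intro t ht
  rw [← h2 t ht, ← h2' t (by omega)]
  congr 1
  omega

theorem new_subsingleton (w : ℕ → α) (N : ℕ) : (New w N).Subsingleton := by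
  rintro p ⟨k, h1, rfl, h2, h3⟩ q ⟨k', h1', rfl, h2', h3'⟩
  have : k = k' := by
    rcases le_total k k' with h | h
    · exact new_sub w N h1 h1' h2 h2' h3 h
    · exact (new_sub w N h1' h1 h2' h2 h3' h).symm
  rw [this]

theorem pal_finite (w : ℕ → α) (N : ℕ) : (Pal w N).Finite := by
  induction N with
  | zero => rw [pal_zero]; exact Set.finite_singleton _
  | succ N ih =>
    rw [pal_succ]
    exact ih.union (new_subsingleton w N).finite

theorem pal_card_succ (w : ℕ → α) (N : ℕ) :
    (Pal w (N + 1)).ncard = (Pal w N).ncard + (New w N).ncard := by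
  rw [pal_succ]
  apply Set.ncard_union_eq ?_ (pal_finite w N) (new_subsingleton w N).finite
  rw [Set.disjoint_left]
  rintro p hp ⟨k, _, _, _, hn⟩
  exact hn hp

theorem new_card (w : ℕ → α) (N : ℕ) : (New w N).ncard ≤ 1 := by
  have := (new_subsingleton w N).finite.to_subtype
  exact Set.ncard_le_one_iff_subsingleton.2 (new_subsingleton w N)

theorem pal_card_le (w : ℕ → α) (N : ℕ) : (Pal w N).ncard ≤ N + 1 := by
  induction N with
  | zero => rw [pal_zero, Set.ncard_singleton]
  | succ N ih =>
    rw [pal_card_succ]
    have := new_card w N
    omega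

theorem new_nonempty_iff (w : ℕ → α) (N : ℕ) : (New w N).Nonempty ↔
    ∃ k, 1 ≤ k ∧ k ≤ N + 1 ∧ (win w k (N + 1 - k)).reverse = win w k (N + 1 - k) ∧
      ∀ a, a + k < N + 1 → win w k a ≠ win w k (N + 1 - k) := by
  constructor
  · rintro ⟨p, k, h1, hp, h2, h3⟩
    subst hp
    have hk : 1 ≤ k := by
      by_contra h0
      have : k = 0 := by omega
      subst this
      exact h3 ⟨0, 0, by omega, rfl, rfl⟩
    refine ⟨k, hk, h1, h2, ?_⟩
    intro a ha heq
    exact h3 ⟨k, a, by omega, heq.symm, h2⟩
  · rintro ⟨k, hk, h1, h2, h3⟩
    refine ⟨_, k, h1, rfl, h2, ?_⟩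
    rintro ⟨k', i, hi, heq, _⟩
    have hkk : k = k' := by
      have := congrArg List.length heq
      rwa [win_length, win_length] at this
    subst hkk
    exact h3 i (by omega) heq.symm

theorem pal_card_iff (w : ℕ → α) (N : ℕ) : (Pal w N).ncard = N + 1 ↔ Ul w N := by
  induction N with
  | zero =>
    rw [pal_zero, Set.ncard_singleton]
    constructor
    · intro _ m h1 h2
      omega
    · intro _; rfl
  | succ N ih =>
    rw [pal_card_succ]
    have h1 := new_card w N
    have h2 := pal_card_le w N
    constructor
    · intro h
      have h3 : (Pal w N).ncard = N + 1 := by omega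
      have h4 : (New w N).ncard = 1 := by omega
      have h5 := ih.1 h3
      intro m hm1 hm2
      rcases Nat.lt_or_ge m (N + 1) with hlt | hge
      · exact h5 m hm1 (by omega)
      · have : m = N + 1 := by omega
        subst this
        apply (new_nonempty_iff w N).1
        rw [← Set.ncard_pos (new_subsingleton w N).finite]
        omega
    · intro h
      have h3 := ih.2 (h.mono (Nat.le_succ N))
      have h4 : (New w N).Nonempty := (new_nonempty_iff w N).2 (h (N + 1) (by omega) le_rfl)
      rw [← Set.ncard_pos (new_subsingleton w N).finite] at h4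
      omega

/-! ### lists -/

theorem win_shift (w : ℕ → α) (i k j : ℕ) : win (fun t => w (i + t)) k j = win w k (i + j) := by
  rw [win_eq]
  intro t ht
  show w (i + (j + t)) = w (i + j + t)
  rw [add_assoc]

theorem win_append (w : ℕ → α) (a b i : ℕ) : win w (a + b) i = win w a i ++ win w b (i + a) := by
  apply List.ext_getElem
  · rw [List.length_append, win_length, win_length, win_length]
  · intro t h1 h2
    rw [win_length] at h1
    rw [win_get w (a + b) i t h1]
    by_cases h : t < a
    · rw [List.getElem_append_left (by rw [win_length]; exact h), win_get w a i t h]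
    · rw [List.getElem_append_right (by rw [win_length]; omega)]
      simp only [win_length]
      rw [win_get w b (i + a) (t - a) (by omega)]
      congr 1
      omega

theorem infix_iff (w : ℕ → α) (N i : ℕ) (p : List α) :
    p <:+: win w N i ↔ ∃ j, j + p.length ≤ N ∧ p = win w p.length (i + j) := by
  constructor
  · rintro ⟨s, t, hst⟩
    have hlen := congrArg List.length hst
    rw [List.length_append, List.length_append, win_length] at hlen
    refine ⟨s.length, by omega, ?_⟩
    apply List.ext_getElem
    · rw [win_length]
    · intro r h1 h2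
      rw [win_get w _ _ r h1]
      have h3 : (s ++ p ++ t)[s.length + r]'(by
          rw [List.length_append, List.length_append]; omega) =
          (win w N i)[s.length + r]'(by rw [win_length]; omega) := by
        simp only [hst]
      rw [win_get w N i (s.length + r) (by omega)] at h3
      rw [List.getElem_append_left (by rw [List.length_append]; omega),
        List.getElem_append_right (by omega)] at h3
      simp only [Nat.add_sub_cancel_left] at h3
      rw [h3]
      congr 1
      omega
  · rintro ⟨j, hj, hp⟩
    have h1 : N = j + (p.length + (N - j - p.length)) := by omega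
    refine ⟨win w j i, win w (N - j - p.length) (i + j + p.length), ?_⟩
    conv_rhs => rw [h1, win_append, win_append]
    rw [← hp, List.append_assoc]

theorem rich_win (w : ℕ → α) (N i : ℕ) : Rich (win w N i) ↔ Ul (fun t => w (i + t)) N := by
  rw [← pal_card_iff]
  unfold Rich
  rw [win_length]
  have : {p : List α | p <:+: win w N i ∧ p.reverse = p} = Pal (fun t => w (i + t)) N := by
    ext p
    constructor
    · rintro ⟨h1, h2⟩
      obtain ⟨j, hj, hp⟩ := (infix_iff w N i p).1 h1
      exact ⟨p.length, j, hj, by rw [win_shift]; exact hp, h2⟩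
    · rintro ⟨k, j, hj, hp, h2⟩
      rw [win_shift] at hp
      have hk : p.length = k := by rw [hp, win_length]
      exact ⟨(infix_iff w N i p).2 ⟨j, by omega, by rw [hk]; exact hp⟩, h2⟩
  rw [this]

theorem list_win (l : List α) (d : α) : l = win (fun t => l.getD t d) l.length 0 := by
  apply List.ext_getElem
  · rw [win_length]
  · intro t h1 h2
    rw [win_get _ _ _ t h1, zero_add, List.getD_eq_getElem _ _ h1]

theorem rich_nil : Rich ([] : List α) := by
  unfold Rich
  have : {p : List α | p <:+: [] ∧ p.reverse = p} = {[]} := by
    ext p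
    constructor
    · rintro ⟨h1, _⟩
      exact List.eq_nil_of_infix_nil h1
    · rintro rfl
      exact ⟨List.infix_refl _, rfl⟩
  rw [this, Set.ncard_singleton]
  rfl

theorem rich_reverse {l : List α} (h : Rich l) : Rich l.reverse := by
  unfold Rich at h ⊢
  rw [List.length_reverse, ← h]
  congr 1
  ext p
  constructor
  · rintro ⟨h1, h2⟩
    refine ⟨?_, h2⟩
    rw [← h2] at h1
    exact List.reverse_infix.1 h1
  · rintro ⟨h1, h2⟩
    refine ⟨?_, h2⟩
    rw [← h2]
    exact List.reverse_infix.2 h1

theorem rich_prefix {p q : List α} (h : Rich (p ++ q)) : Rich p := by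
  rcases p with _ | ⟨d, p⟩
  · exact rich_nil
  · set l := (d :: p) ++ q with hl
    have h1 := list_win l d
    rw [h1, rich_win] at h
    have h2 : d :: p = win (fun t => l.getD t d) (d :: p).length 0 := by
      have h3 : win (fun t => l.getD t d) l.length 0 =
          win (fun t => l.getD t d) (d :: p).length 0 ++
          win (fun t => l.getD t d) q.length (0 + (d :: p).length) := by
        rw [← win_append, hl, List.length_append]
      rw [← h1] at h3
      exact (List.append_inj h3 (by rw [win_length])).1
    rw [h2, rich_win]
    exact h.mono (by rw [hl, List.length_append]; omega)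

theorem rich_infix {l p : List α} (h : Rich l) (hp : p <:+: l) : Rich p := by
  obtain ⟨s, t, rfl⟩ := hp
  have h1 := rich_prefix h
  have h2 := rich_reverse h1
  rw [List.reverse_append] at h2
  have h3 := rich_reverse (rich_prefix h2)
  rwa [List.reverse_reverse] at h3

theorem finite_len [Finite α] (n : ℕ) : {x : List α | x.length = n}.Finite :=
  List.finite_length_eq α n

theorem count_bound [Finite α] {w : ℕ → α} {N n : ℕ} (hn : n ≤ N) (hU : Ul w N) (hD : Dw w N n) :
    N + 1 ≤ n + {x : List α | x.length = n ∧ Rich x}.ncard := by
  have hfin : {x : List α | x.length = n ∧ Rich x}.Finite :=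
    (finite_len n).subset (fun x hx => hx.1)
  have hR : Rich (win w N 0) := by
    rw [rich_win]
    simpa using hU
  have h1 : Set.InjOn (fun i => win w n i) (Set.Iio (N - n + 1)) := by
    intro i hi j hj h
    simp only [Set.mem_Iio] at hi hj
    exact hD i j (by omega) (by omega) h
  have h2 : (fun i => win w n i) '' (Set.Iio (N - n + 1)) ⊆
      {x : List α | x.length = n ∧ Rich x} := by
    rintro _ ⟨i, hi, rfl⟩
    simp only [Set.mem_Iio] at hi
    refine ⟨win_length w n i, rich_infix hR ?_⟩
    rw [infix_iff]
    exact ⟨i, by rw [win_length]; omega, by rw [win_length, zero_add]⟩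
  have h3 := Set.ncard_le_ncard h2 hfin
  rw [Set.ncard_image_of_injOn h1] at h3
  have h4 : (Set.Iio (N - n + 1)).ncard = N - n + 1 := by
    rw [Set.ncard_eq_toFinset_card']
    simp
  omega

/-- the case when `u` starts before `v` in the rich word `win w N 0` -/
theorem main_aux [Finite α] {w : ℕ → α} {N i j : ℕ} {u v : List α} (hR : Rich (win w N 0))
    (hi : i + u.length ≤ N) (hu : u = win w u.length i) (hj : j + v.length ≤ N)
    (hv : v = win w v.length j) (hij : i ≤ j) :
    ∃ z : List α, Rich z ∧ u <:+: z ∧ v <:+: z ∧ z.length + 1 ≤ max u.length v.length +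
      {x : List α | x.length = max u.length v.length ∧ Rich x}.ncard := by
  set n := max u.length v.length with hn
  have hfin : {x : List α | x.length = n ∧ Rich x}.Finite :=
    (finite_len n).subset (fun x hx => hx.1)
  by_cases hcase : j + v.length ≤ i + u.length
  · have huR : Rich u := by
      apply rich_infix hR
      rw [infix_iff]
      exact ⟨i, hi, by rw [zero_add]; exact hu⟩
    refine ⟨u, huR, List.infix_refl u, ?_, ?_⟩
    · rw [hu, infix_iff]
      exact ⟨j - i, by omega, by rw [show i + (j - i) = j by omega]; exact hv⟩
    · have hlen : u.length = n := by omega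
      have : 0 < {x : List α | x.length = n ∧ Rich x}.ncard :=
        (Set.ncard_pos hfin).2 ⟨u, hlen, huR⟩
      omega
  · set M := j + v.length - i with hM
    have hMn : n ≤ M := by omega
    set w1 : ℕ → α := fun t => w (i + t) with hw1
    have hRM : Rich (win w M i) := by
      apply rich_infix hR
      rw [infix_iff]
      exact ⟨i, by rw [win_length]; omega, by rw [win_length, zero_add]⟩
    rw [rich_win] at hRM
    obtain ⟨w', N', h1, h2, h3, h4, h5⟩ := exists_short (n := n) M w1 hMn
      (fun k _ => Ul.br hRM k)
    refine ⟨win w' N' 0, ?_, ?_, ?_, ?_⟩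
    · rw [rich_win]; simpa using h2
    · rw [infix_iff]
      refine ⟨0, by omega, ?_⟩
      rw [win_eq] at h4
      have h6 : win w' u.length (0 + 0) = win w u.length i := by
        rw [win_eq]
        intro t ht
        have := h4 t (by omega)
        rw [show 0 + 0 + t = 0 + t by omega, this, hw1]
        simp only
        congr 1
        omega
      rw [h6]
      exact hu
    · rw [infix_iff]
      refine ⟨N' - v.length, by omega, ?_⟩
      rw [win_eq] at h5
      have h6 : win w' v.length (0 + (N' - v.length)) = win w v.length j := by
        rw [win_eq]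
        intro t ht
        have := h5 (n - v.length + t) (by omega)
        rw [show N' - n + (n - v.length + t) = 0 + (N' - v.length) + t by omega] at this
        rw [this, hw1]
        simp only
        congr 1
        omega
      rw [h6]
      exact hv
    · rw [win_length]
      exact count_bound h1 h2 h3

theorem main [Finite α] (u v w : List α) (hw : Rich w) (hu : u <:+: w) (hv : v <:+: w) :
    ∃ z : List α, Rich z ∧ u <:+: z ∧ v <:+: z ∧ z.length + 1 ≤ max u.length v.length +
      {x : List α | x.length = max u.length v.length ∧ Rich x}.ncard := by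
  rcases w with _ | ⟨d, w⟩
  · have h1 : u = [] := List.eq_nil_of_infix_nil hu
    have h2 : v = [] := List.eq_nil_of_infix_nil hv
    subst h1 h2
    refine ⟨[], rich_nil, List.infix_refl _, List.infix_refl _, ?_⟩
    have hfin : {x : List α | x.length = max ([] : List α).length ([] : List α).length ∧
        Rich x}.Finite := (finite_len _).subset (fun x hx => hx.1)
    have : 0 < {x : List α | x.length = max ([] : List α).length ([] : List α).length ∧
        Rich x}.ncard := (Set.ncard_pos hfin).2 ⟨[], rfl, rich_nil⟩
    simp only [List.length_nil, max_self] at this ⊢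
    omega
  · set l := d :: w with hl
    have h1 := list_win l d
    rw [h1] at hw hu hv
    obtain ⟨i, hi, hui⟩ := (infix_iff _ _ _ _).1 hu
    obtain ⟨j, hj, hvj⟩ := (infix_iff _ _ _ _).1 hv
    rw [zero_add] at hui hvj
    rcases le_total i j with hij | hij
    · exact main_aux hw hi hui hj hvj hij
    · obtain ⟨z, h2, h3, h4, h5⟩ := main_aux hw hj hvj hi hui hij
      rw [max_comm] at h5
      exact ⟨z, h2, h4, h3, h5⟩

theorem count_le [Fintype α] (n : ℕ) :
    {x : List α | x.length = n ∧ Rich x}.ncard ≤ Fintype.card α ^ n := by
  have h1 : {x : List α | x.length = n ∧ Rich x}.ncard ≤ {x : List α | x.length = n}.ncard :=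
    Set.ncard_le_ncard (fun x hx => hx.1) (finite_len n)
  have h2 : {x : List α | x.length = n}.ncard = Fintype.card α ^ n := by
    have h3 : {x : List α | x.length = n} = Set.range (fun v : List.Vector α n => v.toList) := by
      ext x
      constructor
      · intro hx
        exact ⟨⟨x, hx⟩, rfl⟩
      · rintro ⟨v, rfl⟩
        exact v.2
    rw [h3, ← Set.image_univ, Set.ncard_image_of_injective _ List.Vector.toList_injective,
      Set.ncard_univ, Nat.card_eq_fintype_card, card_vector]
  omega

end Pool.Agent.RichW
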